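import Pool.Agent.MX.I.Defs

/-!
# MX/E-Pick: many independent elements with allowed types at all places of `V` (MD/E-Pick)
-/

namespace Pool.Agent.MX

open NumberField IsDedekindDomain Pool.Agent.HWR Pool.Agent.QD Pool.Agent.QD.In Pool.Agent.LD
  Pool.Agent.MD

variable {K : Type} [Field K] [NumberField K]

private theorem pk_unif (w : HeightOneSpectrum (𝓞 K)) : ∃ a : 𝓞 K, a ∈ w.asIdeal ^ 1 ∧ a ∉ w.asIdeal ^ 2 := by
  obtain ⟨a, ha⟩ := w.intValuation_exists_uniformizer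
  refine ⟨a, ?_, ?_⟩
  · rw [← w.intValuation_le_pow_iff_mem, ha]
    simp
  · rw [← w.intValuation_le_pow_iff_mem, ha, WithZero.exp_le_exp]
    norm_num

private theorem pk_inf : Infinite (HeightOneSpectrum (𝓞 K)) := by
  have h : ∀ p : Nat.Primes, ∃ w : HeightOneSpectrum (𝓞 K), ((p : ℕ) : 𝓞 K) ∈ w.asIdeal := by
    intro p
    have h1 : Ideal.span {((p : ℕ) : 𝓞 K)} ≠ ⊤ := by
      rw [Ne, Ideal.span_singleton_eq_top]
      intro hu
      have h3 : Ideal.absNorm (Ideal.span {((p : ℕ) : 𝓞 K)}) = 1 := by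
        rw [Ideal.absNorm_eq_one_iff, Ideal.span_singleton_eq_top]
        exact hu
      rw [Ideal.absNorm_span_natCast] at h3
      have h5 : 0 < Module.finrank ℤ (𝓞 K) := Module.finrank_pos
      have h6 := p.2.one_lt
      have h7 : 1 < (p : ℕ) ^ Module.finrank ℤ (𝓞 K) := Nat.one_lt_pow h5.ne' h6
      omega
    obtain ⟨M, hM, hle⟩ := Ideal.exists_le_maximal _ h1
    have h2 : ((p : ℕ) : 𝓞 K) ∈ M := hle (Ideal.mem_span_singleton_self _)
    refine ⟨⟨M, hM.isPrime, ?_⟩, h2⟩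
    rintro rfl
    rw [Ideal.mem_bot, Nat.cast_eq_zero] at h2
    exact p.2.ne_zero h2
  choose w hw using h
  refine Infinite.of_injective w ?_
  intro p q hpq
  by_contra hne
  have hne' : (p : ℕ) ≠ (q : ℕ) := fun h => hne (Subtype.ext h)
  have hco : IsCoprime (((p : ℕ) : ℤ)) (((q : ℕ) : ℤ)) :=
    Nat.isCoprime_iff_coprime.2 ((Nat.coprime_primes p.2 q.2).2 hne')
  obtain ⟨a, b, hab⟩ := hco
  have h1 := hw p
  have h2 := hw q
  rw [← hpq] at h2
  apply (w p).isPrime.ne_top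
  rw [Ideal.eq_top_iff_one]
  have h3 : (1 : 𝓞 K) = (a : 𝓞 K) * ((p : ℕ) : 𝓞 K) + (b : 𝓞 K) * ((q : ℕ) : 𝓞 K) := by
    exact_mod_cast (congrArg (Int.cast : ℤ → 𝓞 K) hab).symm
  rw [h3]
  exact (w p).asIdeal.add_mem (Ideal.mul_mem_left _ _ h1) (Ideal.mul_mem_left _ _ h2)

private theorem pk_one {w : HeightOneSpectrum (𝓞 K)} {x : Kˣ} {y a : 𝓞 K}
    (hx : (x : K) = algebraMap (𝓞 K) K y) (ha : a ∈ w.asIdeal ^ 1) (ha2 : a ∉ w.asIdeal ^ 2)
    (h : y - a ∈ w.asIdeal ^ 2) : ordK w x = 1 := by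
  have h1 : ((1 : ℕ) : ℤ) ≤ ordK w x := by
    rw [le_ordK_iff_of_int w x y hx]
    have h2 : y = (y - a) + a := by ring
    rw [h2]
    exact Ideal.add_mem _ (Ideal.pow_le_pow_right (by norm_num) h) ha
  have h2 : ¬ ((2 : ℕ) : ℤ) ≤ ordK w x := by
    rw [le_ordK_iff_of_int w x y hx]
    intro h3
    apply ha2
    have h4 : a = y - (y - a) := by ring
    rw [h4]
    exact Ideal.sub_mem _ h3 h
  push_cast at h1 h2
  omega

private theorem pk_zero {w : HeightOneSpectrum (𝓞 K)} {x : Kˣ} {y : 𝓞 K}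
    (hx : (x : K) = algebraMap (𝓞 K) K y) (h : y - 1 ∈ w.asIdeal ^ 2) : ordK w x = 0 := by
  apply ordK_eq_zero_of_not_mem w x y hx
  intro hy
  apply w.isPrime.ne_top
  rw [Ideal.eq_top_iff_one]
  have h4 : (1 : 𝓞 K) = y - (y - 1) := by ring
  rw [h4]
  exact Ideal.sub_mem _ hy (Ideal.pow_le_self two_ne_zero h)

theorem exists_manyT (V : Finset (HeightOneSpectrum (𝓞 K)))
    (τ : HeightOneSpectrum (𝓞 K) → Ty) (n : ℕ) :
    ∃ x : Fin n → Kˣ, (∀ i, ∀ v ∈ V, uK v (x i) ≠ fb (τ v)) ∧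
      (∀ i j, i ≠ j → ¬ IsSquare (x i * x j)) ∧ (∀ i, ¬ IsSquare (x i)) ∧
      ∀ (i : Fin n) (w : HeightOneSpectrum (𝓞 K)), 0 ≤ ordK w (x i) := by
  classical
  have hinf : Infinite (HeightOneSpectrum (𝓞 K)) := pk_inf
  have hinf2 : Infinite {w : HeightOneSpectrum (𝓞 K) // w ∉ V} :=
    Set.infinite_coe_iff.2 (V.finite_toSet.infinite_compl)
  let f := Infinite.natEmbedding {w : HeightOneSpectrum (𝓞 K) // w ∉ V}
  let w : Fin n → HeightOneSpectrum (𝓞 K) := fun i => (f (i : ℕ)).1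
  have hwv : ∀ i, w i ∉ V := fun i => (f (i : ℕ)).2
  have hw : Function.Injective w := fun i j hij => Fin.ext (f.injective (Subtype.ext hij))
  choose u hu1 hu2 using (pk_unif (K := K))
  have hex : ∀ i : Fin n, ∃ y : 𝓞 K,
      (∀ v ∈ V, y - (if τ v = Ty.r then 1 else u v) ∈ v.asIdeal ^ 2) ∧
      y - u (w i) ∈ (w i).asIdeal ^ 2 ∧
      ∀ j, j ≠ i → y - 1 ∈ (w j).asIdeal ^ 2 := by
    intro i
    obtain ⟨y, hy⟩ := IsDedekindDomain.exists_forall_sub_mem_ideal
      (s := V ∪ Finset.univ.image w)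
      (fun w : HeightOneSpectrum (𝓞 K) => w.asIdeal) (fun _ => 2) (fun w _ => w.prime)
      (fun w _ w' _ h h' => h (HeightOneSpectrum.ext h'))
      (fun z => if z.1 ∈ V then (if τ z.1 = Ty.r then 1 else u z.1) else
        if z.1 = w i then u z.1 else 1)
    refine ⟨y, ?_, ?_, ?_⟩
    · intro v hv
      have h1 := hy v (Finset.mem_union_left _ hv)
      rwa [if_pos hv] at h1
    · have h1 := hy (w i) (Finset.mem_union_right _ (Finset.mem_image_of_mem _ (Finset.mem_univ i)))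
      rwa [if_neg (hwv i), if_pos rfl] at h1
    · intro j hj
      have h1 := hy (w j) (Finset.mem_union_right _ (Finset.mem_image_of_mem _ (Finset.mem_univ j)))
      rwa [if_neg (hwv j), if_neg fun h => hj (hw h)] at h1
  choose y hy1 hy2 hy3 using hex
  have hy0 : ∀ i, algebraMap (𝓞 K) K (y i) ≠ 0 := by
    intro i h
    have h1 : y i = 0 := (FaithfulSMul.algebraMap_injective (𝓞 K) K) (by rw [h, map_zero])
    have h2 := hy2 i
    rw [h1, zero_sub, neg_mem_iff] at h2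
    exact hu2 (w i) h2
  let x : Fin n → Kˣ := fun i => Units.mk0 _ (hy0 i)
  have hx : ∀ i, (x i : K) = algebraMap (𝓞 K) K (y i) := fun i => rfl
  refine ⟨x, ?_, ?_, ?_, ?_⟩
  · intro i v hv
    have h0 := hy1 i v hv
    by_cases hτ : τ v = Ty.r
    · rw [if_pos hτ] at h0
      rw [hτ]
      intro h
      have h1 : Odd (ordK v (x i)) := uK_eq_zero_iff.1 h
      rw [pk_zero (hx i) h0] at h1
      exact absurd h1 (by decide)
    · rw [if_neg hτ] at h0
      have h1 : uK v (x i) = 0 := by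
        rw [uK_eq_zero_iff, pk_one (hx i) (hu1 v) (hu2 v) h0]
        exact odd_one
      rw [h1]
      cases h2 : τ v
      · decide
      · exact absurd h2 hτ
      · decide
  · rintro i j hij ⟨r, hr⟩
    have h1 := pk_one (hx i) (hu1 (w i)) (hu2 (w i)) (hy2 i)
    have h2 := pk_zero (hx j) (hy3 j i hij)
    have h3 := congrArg (ordK (w i)) hr
    rw [ordK_mul, ordK_mul, h1, h2] at h3
    omega
  · rintro i ⟨r, hr⟩
    have h1 := pk_one (hx i) (hu1 (w i)) (hu2 (w i)) (hy2 i)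
    have h3 := congrArg (ordK (w i)) hr
    rw [ordK_mul, h1] at h3
    omega
  · intro i w'
    exact ordK_nonneg_of_int w' (x i) (y i) (hx i)

end Pool.Agent.MX
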