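import Pool.Agent.MX.A.Main
import Pool.Agent.MX.I.Inst
import Pool.Agent.MX.E.Edge
import Pool.Agent.MD.E.OrdP
import Pool.Agent.MD.E.OrdF
import Pool.Agent.MD.E.Defs2
import Pool.Agent.QD.F.Ord
import Pool.Agent.QD.F.Quot
import Pool.Agent.QD.F.Growth
import Pool.Agent.QD.F.MkPole

/-!
# MX/E-Fin: analytic descent from the quadratic extensions with allowed types at `V`
-/

namespace Pool.Agent.MX

open NumberField IsDedekindDomain Pool.Agent.HWR Pool.Agent.QD Pool.Agent.LD Pool.Agent.MD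

private theorem mdf_Lam_diff {q : ℕ} (hq : 101 ≤ q) (lam : ℝ) : Differentiable ℂ (Lam q lam) := by
  have hq0 : (q : ℂ) ≠ 0 := by
    have : q ≠ 0 := by omega
    exact_mod_cast this
  unfold Lam
  refine ((Differentiable.const_cpow ?_ (Or.inl hq0)).add (Differentiable.const_cpow ?_ (Or.inl hq0))).sub_const _
  · exact differentiable_id.sub_const _
  · exact differentiable_id.const_sub _

private theorem mdf_quot {f g : ℂ → ℂ} (hf : Differentiable ℂ f) (hg : Differentiable ℂ g)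
    (hfo : FinOrd f) (hgo : FinOrd g) (hgne : ∀ s : ℂ, 3 / 2 < s.re → g s ≠ 0)
    {c : ℝ} (hc : 0 < c) {k : ℕ}
    (hlow : ∀ s : ℂ, s.re = 3 → c * Real.exp (-(1 + |s.im|) ^ k) ≤ ‖g s‖) {w : ℂ} (hw : w ≠ 0)
    (hfe : ∀ s : ℂ, f s * g (2 - s) = w * (f (2 - s) * g s))
    (hright : ∀ z : ℂ, 1 / 2 < z.re → analyticOrderAt g z ≤ analyticOrderAt f z) :
    ∃ h : ℂ → ℂ, Differentiable ℂ h ∧ FinOrd h ∧ (∀ s : ℂ, h s = w * h (2 - s)) ∧
      ∀ s : ℂ, f s = g s * h s := by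
  have hg0 : ∃ s, g s ≠ 0 := ⟨2, hgne 2 (by norm_num)⟩
  have hleft := ord_left hf hg hg0 hw hfe (fun z hz => hright z (by linarith))
  have hall : ∀ z : ℂ, analyticOrderAt g z ≤ analyticOrderAt f z := by
    intro z
    rcases lt_or_ge z.re 1 with h | h
    · exact hleft z h
    · exact hright z (by linarith)
  obtain ⟨h, hh, hfgh⟩ := entire_quot hf hg hg0 hall
  have hord := finOrd_quot hf hg hh hfo hgo hfgh hc hlow
  refine ⟨h, hh, hord, ?_, hfgh⟩
  have key : ∀ s : ℂ, g s * g (2 - s) * (h s - w * h (2 - s)) = 0 := by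
    intro s
    have e1 := hfe s
    rw [hfgh s, hfgh (2 - s)] at e1
    linear_combination e1
  have han : AnalyticOnNhd ℂ (fun s : ℂ => g s * g (2 - s)) Set.univ := by
    have : Differentiable ℂ (fun s : ℂ => g s * g (2 - s)) := by fun_prop
    exact this.differentiableOn.analyticOnNhd isOpen_univ
  have han2 : AnalyticOnNhd ℂ (fun s : ℂ => h s - w * h (2 - s)) Set.univ := by
    have : Differentiable ℂ (fun s : ℂ => h s - w * h (2 - s)) := by fun_prop
    exact this.differentiableOn.analyticOnNhd isOpen_univ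
  rcases AnalyticOnNhd.eq_zero_or_eq_zero_of_mul_eq_zero han han2 (fun z _ => key z)
    isPreconnected_univ with h1 | h1
  · exfalso
    have a1 : AnalyticOnNhd ℂ g Set.univ := hg.differentiableOn.analyticOnNhd isOpen_univ
    have a2 : AnalyticOnNhd ℂ (fun s : ℂ => g (2 - s)) Set.univ := by
      have : Differentiable ℂ (fun s : ℂ => g (2 - s)) := by fun_prop
      exact this.differentiableOn.analyticOnNhd isOpen_univ
    rcases AnalyticOnNhd.eq_zero_or_eq_zero_of_mul_eq_zero a1 a2 h1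
      isPreconnected_univ with h2 | h2
    · exact hgne 2 (by norm_num) (h2 2 (Set.mem_univ _))
    · refine hgne 2 (by norm_num) ?_
      have := h2 0 (Set.mem_univ _)
      simpa using this
  · intro s
    have := h1 s (Set.mem_univ _)
    linear_combination this

private theorem mdf_two_nsmul {a b : ℕ∞} (h : 2 • a ≤ 2 • b) : a ≤ b := by
  rw [two_nsmul, two_nsmul] at h
  by_contra hcon
  have hlt := not_le.1 hcon
  have hb : b ≠ ⊤ := ne_top_of_lt hlt
  exact absurd h (not_le.2 (ENat.add_lt_add_of_lt_of_le hb hlt hlt.le))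

section

variable (K : Type) [Field K] [NumberField K] (T : Finset ℕ) (hTp : ∀ p ∈ T, p.Prime)
  (hT : ∀ p : ℕ, p.Prime → p < 101 → p ∈ T) (D : LocData T) (a : ℕ → ℝ)
  (ha : ∀ q : ℕ, |a q| ≤ 2 * Real.sqrt q) (ha2 : SqRel K T a)
  (V : Finset (HeightOneSpectrum (𝓞 K))) (hV : ∀ v ∈ V, Away K T v) (τ : HeightOneSpectrum (𝓞 K) → Ty)
  (hne : ∃ v ∈ V, τ v = Ty.s) (H : HWT D a V τ)

include hTp hT ha ha2 hV hne H

theorem ord_allT {f g : ℂ → ℂ} (hf : Differentiable ℂ f) (hg : Differentiable ℂ g)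
    (hgne : ∀ s : ℂ, 3 / 2 < s.re → g s ≠ 0)
    (hfg : ∀ s : ℂ, 3 / 2 < s.re → g s * D.Lam a K s ^ 2 = f s) :
    ∀ z : ℂ, 1 / 2 < z.re → analyticOrderAt g z ≤ analyticOrderAt f z := by
  classical
  obtain ⟨S, Hs, Kn, M0, e, p, F, hS, hG, hL, hF, hLs⟩ := instT K T hTp hT D a ha ha2 V hV τ hne H
  obtain ⟨R, F2, hR, hFd, hFe⟩ := locT_main hS hG hL
  have hprod : ∀ t : ℂ, ∏ i : {v // v ∈ V}, LamT (τ i.1) (nrm i.1) (a (nrm i.1)) t =
      ∏ i : {v // v ∈ V.filter fun v => τ v = Ty.s}, Lam (nrm i.1) (a (nrm i.1)) t := by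
    intro t
    rw [Finset.prod_coe_sort V (fun v => LamT (τ v) (nrm v) (a (nrm v)) t),
      Finset.prod_coe_sort (V.filter fun v => τ v = Ty.s) (fun v => Lam (nrm v) (a (nrm v)) t),
      Finset.prod_filter]
    refine Finset.prod_congr rfl fun v _ => ?_
    cases h : τ v
    · rw [if_pos rfl]
      rfl
    · rw [if_neg (by decide)]
      rfl
    · rw [if_neg (by decide)]
      rfl
  have hq' : ∀ i : {v // v ∈ V.filter fun v => τ v = Ty.s}, 101 ≤ nrm i.1 := fun i =>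
    hL.hq ⟨i.1, (Finset.mem_filter.1 i.2).1⟩
  have hl' : ∀ i : {v // v ∈ V.filter fun v => τ v = Ty.s},
      |a (nrm i.1)| ≤ 2 * Real.sqrt (nrm i.1) := fun i =>
    hL.hl ⟨i.1, (Finset.mem_filter.1 i.2).1⟩
  have hFe' : ∀ t : ℂ, R < t.re → t.re < R + 1 → F2 t =
      (∏ i : {v // v ∈ V.filter fun v => τ v = Ty.s}, Lam (nrm i.1) (a (nrm i.1)) t) *
        S.Ls t ^ 2 := by
    intro t h1 h2
    rw [← hprod t]
    exact hFe t h1 h2
  have hord := ord_P K T hT a ha hS F hF hLs hq' hl' hR hFd hFe'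
    (fun z c δ0 hz hc hδ h => edgeT K T hTp hT D a ha ha2 V hV τ hne H z hz hc hδ h)
  refine ord_sq K T hTp hT D a ha hf hg hgne hfg S F hF hLs ?_ ?_ hR hFd hFe' hord
  · exact Differentiable.fun_finsetProd fun i _ => mdf_Lam_diff (hq' i) _
  · exact ⟨2, Finset.prod_ne_zero_iff.2 fun i _ => Lam_ne (hq' i) (hl' i) (by norm_num)⟩

theorem hw_of_merT (hM : D.MER a K) : D.HW a K := by
  obtain ⟨f, g, hf, hg, hfo, hgo, hgne, ⟨c, hc, k0, hlow⟩, hfg, hfe⟩ := hM
  have h2 := ord_allT K T hTp hT D a ha ha2 V hV τ hne H (f := f ^ 2) (g := g ^ 2) (hf.pow 2)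
    (hg.pow 2) (fun s hs => pow_ne_zero 2 (hgne s hs))
    (fun s hs => by rw [Pi.pow_apply, Pi.pow_apply, ← mul_pow, hfg s hs])
  have hright : ∀ z : ℂ, 1 / 2 < z.re → analyticOrderAt g z ≤ analyticOrderAt f z := by
    intro z hz
    have h3 := h2 z hz
    rw [analyticOrderAt_pow (hg.analyticAt z), analyticOrderAt_pow (hf.analyticAt z)] at h3
    exact mdf_two_nsmul h3
  obtain ⟨h, hh, hord, hfeq, hfgh⟩ := mdf_quot hf hg hfo hgo hgne hc hlow (w_ne K T D) hfe hright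
  refine ⟨h, hh, hord, hfeq, fun s hs => ?_⟩
  have e1 := hfg s hs
  rw [hfgh s] at e1
  exact (mul_left_cancel₀ (hgne s hs) e1).symm

end

end Pool.Agent.MX
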